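import Mathlib
import Pool.Agent.Helper22.ETModel
import Pool.Agent.Helper8.VT.Defs
import Pool.Agent.Helper8.UV.Defs
import Pool.Agent.Helper5.R4.Defs
import Pool.Agent.Helper5.R4.Stmt
import Pool.Agent.Helper5.R4.Multi
import Pool.Agent.Helper5.R4.Upper
import Pool.Agent.Helper5.R4.Num

/-!
# Exact Triangle by votes of two-way conversations about single vertices

The classes of vertices are the residues modulo 3. A random circuit consists of finitely many
voters, whose votes are arbitrary real numbers; it accepts if the sum of the votes is positive. It
has to be correct with probability at least `19/20` on every valid complete tripartite instance.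
Everything is allowed to depend on the flags; the difficulty is in the weights.

Let `c` be a vertex of the class `0`. The weights that matter for `c` form three parts: those between
`c` and the class `1`, those between `c` and the class `2`, and those between the classes `1`
and `2`. A voter is free for `c` if it ignores one of the three parts (`IsFree`); apart from this it
is an arbitrary real function of all the weights. A voter is a conversation about `c` with `a` and
`b` bits (`IsConv`), if it is the result of a conversation between Alice, who knows all the weights
except those between the classes `1` and `2`, and Bob, who knows all the weights except those between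
`c` and the class `2`. Alice says at most `a` bits and Bob says at most `b` bits, in any order that
depends on the bits said before, and at the end both of them add an arbitrary real vote which depends
on all they know.

Theorem. There is a constant `C` such that for all `n`

* if every voter is free for `c` or a conversation about `c`, and Alice says `A` bits and Bob says
  `B` bits in all conversations together, in expectation, then
  `exp (- C A / n) + exp (- C B / n ^ 2) ≤ 1 + C / n`;
* if every voter is for every `c` free for `c` or a conversation about `c` then
  `exp (- C A / n ^ 2) + exp (- C B / n ^ 3) ≤ 1 + C / n`, where `A` and `B` are the sums over all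
  conversations about all `c`.

So `B ≥ c n ^ 3 log n` if Alice is silent, and for every `δ < 1 / C` it follows from
`A ≤ δ n ^ 2 log n` that `B ≥ n ^ (3 - C δ)` up to a constant. This is the truth up to the constant
in the exponent:

* for every `s` there is a random circuit in which voter `r` is a conversation about the vertex `r`
  with `s n` bits of Alice and `O (log n (n ^ 2 / 2 ^ s + 1))` bits of Bob and free for all
  other vertices of the class `0`, so `A = s n ^ 2` and `B = O (log n (n ^ 3 / 2 ^ s + n))`.

Idea of the proof. The weights between `c` and the class `1` and between the classes `1` and `2` are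
random numbers `x j` and `y j k`, and those between `c` and the class `2` are random numbers `-u k`,
where `y` and `u` have a much larger range than `x`. For the independent copies `x'`, `y'` the
combination `V x y u - V x' y u - V x y' u + V x' y' u` of the sums of the votes `V` does not
contain any free voter apart from a function of `y` and `y'`; for fixed `x`, `x'`, `y'` it is a
sum of conversations between the owner of `u` and the owner of `y`. Planting `u k = x j + y j k`
makes the first term positive and the other terms are not positive with high probability; so the
sign of the combination must feel the planting. A two-way conversation with `a` and `b` bits and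
arbitrary votes at the end can be replaced by staircases, and the staircases by rectangles. In a
rectangle `S × T` most of the plantings can not be seen if `S` has density at least `2 ^ (- a)` and
`T` has density at least `2 ^ (- b)`: most coordinates `u k` have a small relative entropy in `S`, so
that the set of unlikely values of `u k` is small, and `T` has to avoid it for all `j` and most `k`.
-/

set_option autoImplicit false

namespace Pool.Agent.Results.MP_62fbe0_lc.VertexConversations

open Pool.Agent.Helper22.ETModel Pool.Agent.Helper8.VT Pool.Agent.Helper8.UV
open Pool.Agent.Helper5.R4

/-- Exact Triangle by votes of two-way conversations about single vertices: the lower bound for one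
vertex, the lower bound for all vertices together, and the upper bound. -/
theorem result :
    (∃ C : ℝ, 0 < C ∧
      -- one vertex
      (∀ (n : ℕ) (c : Fin n), (c : ℕ) % 3 = 0 →
        ∀ (Ω ι : Type) [Fintype Ω] [Nonempty Ω] [Fintype ι] (H : Ω → ι → Inst n → ℝ)
          (a b : Ω → ι → ℕ),
          (∀ ω r, IsFree c (H ω r) ∨ IsConv c (a ω r) (b ω r) (H ω r)) →
          (∀ I : Inst n, I.Valid → Tripartite I → Decides H I) →
          Real.exp (-(C * ((∑ ω, ∑ r, (a ω r : ℝ)) / Fintype.card Ω) / n)) +
            Real.exp (-(C * ((∑ ω, ∑ r, (b ω r : ℝ)) / Fintype.card Ω) / (n : ℝ) ^ 2)) ≤
              1 + C / n) ∧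
      -- all vertices
      (∀ (n : ℕ), 1 ≤ n → ∀ (Ω ι : Type) [Fintype Ω] [Nonempty Ω] [Fintype ι]
        (H : Ω → ι → Inst n → ℝ) (a b : Ω → ι → Fin n → ℕ),
        (∀ ω r (c : Fin n), (c : ℕ) % 3 = 0 →
          IsFree c (H ω r) ∨ IsConv c (a ω r c) (b ω r c) (H ω r)) →
        (∀ I : Inst n, I.Valid → Tripartite I → Decides H I) →
        Real.exp (-(C * ((∑ ω, ∑ r, ∑ c, (a ω r c : ℝ)) / Fintype.card Ω) / (n : ℝ) ^ 2)) +
          Real.exp (-(C * ((∑ ω, ∑ r, ∑ c, (b ω r c : ℝ)) / Fintype.card Ω) / (n : ℝ) ^ 3)) ≤
            1 + C / n)) ∧
    -- the upper bound
    (∀ n s : ℕ, 1 ≤ n →
      ∃ (Ω : Type) (_ : Fintype Ω) (_ : Nonempty Ω) (H : Ω → Fin n → Inst n → ℝ),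
        (∀ ω r, IsConv r (s * n) (304 * (Nat.log 2 n + 1) * (20 * n ^ 2 / 2 ^ s + 1)) (H ω r)) ∧
        (∀ ω (r c : Fin n), (c : ℕ) % 3 = 0 → c ≠ r → IsFree c (H ω r)) ∧
        ∀ I : Inst n, I.Valid → Tripartite I → Decides H I) := by
  obtain ⟨C, hC, h⟩ := lower
  exact ⟨⟨3 * C, by positivity, lower_mono (by linarith) h, multi C hC.le h⟩,
    fun n s hn => upper n s hn⟩

end Pool.Agent.Results.MP_62fbe0_lc.VertexConversations
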